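import Pool.Agent.H45.SE.TarT

/-!
# se_modules, module TGa: the class `C(s)` is preserved by isomorphisms (MP_eaeaf5_lc)
-/

set_option linter.unusedVariables false

open Ordinal Order Set
open scoped ZFSet

namespace SE

open SF

theorem pf_TGa (hSE : T_SE) (hTBa : T_TBa) (hTBb : T_TBb) (hTCa : T_TCa) (hTCb : T_TCb) :
    T_TGa := by
  intro D hD hTab s hOb π ρ ρ' p hI hA hNs hs hT hId G hG hp
  obtain ⟨-, hG', hpG', -, -, -⟩ : D.IsN (inv π) ρ' ρ (mv π p) ∧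
      D.Gn ρ' (gp D.L π p ρ' G) ∧ mv π p ∈ gp D.L π p ρ' G ∧
      (∀ q ∈ D.P ρ, Le q p → (mv π q ∈ gp D.L π p ρ' G ↔ q ∈ G)) ∧
      (∀ x, D.W (gp D.L π p ρ' G) x ↔ D.W G x) ∧
      gp D.L (inv π) (mv π p) ρ (gp D.L π p ρ' G) = G :=
    ⟨(hTCa D hD π ρ ρ' p hI).1, (hTCa D hD π ρ ρ' p hI).2 G hG hp⟩
  obtain ⟨hv, hP, hr⟩ := hTCb D hD π ρ ρ' p hI G hG hp
  obtain ⟨him, hs', -, -⟩ := hr s hNs hs hT hId
  obtain ⟨hij, hmap, himρ, -⟩ := hTBb D.L π ρ ρ' p hI.c hI.c' hI.i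
  have hSt : D.St ρ G := ⟨hI.h, hI.c, hG⟩
  have hSt' : D.St ρ' (gp D.L π p ρ' G) := ⟨hI.h', hI.c', hG'⟩
  rw [hSE D hD hTab ρ G hSt s hs, hSE D hD hTab ρ' _ hSt' s hs']
  have hPr : ∀ x, Pro ρ' (gp D.L π p ρ' G) x ↔ Pro ρ G x := by
    intro x
    have := hP hA ρ (fun _ h => h) x
    rw [himρ] at this
    exact this
  have h1 : (∀ i ∈ ρ, ¬ Pro ρ G (ev G (lY i))) ↔ ∀ i ∈ ρ', ¬ Pro ρ' (gp D.L π p ρ' G)
      (ev (gp D.L π p ρ' G) (lY i)) := by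
    constructor
    · intro h i' hi'
      obtain ⟨i, hi, rfl⟩ := hI.i.onto i' hi'
      rw [(hv i hi).2.1, hPr]
      exact h i hi
    · intro h i hi
      have := h (app π i) (hmap i hi)
      rw [(hv i hi).2.1, hPr] at this
      exact this
  have hkS : ∀ k ∈ s, ∀ i ∈ ρ, (k ∈ lS (app π i) ↔ k ∈ lS i) := by
    intro k hk i hi
    rw [hI.i.sup i hi]
    have h2 := ((hTBa.2.2.1 π ρ hij (lS i) (hI.c i hi).2).2.1 k (hs hk))
    rw [hId k hk] at h2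
    exact h2
  have hIk : ∀ k ∈ s, Idn π (insert k (lS k)) := by
    intro k hk j hj
    rcases ZFSet.mem_insert_iff.1 hj with rfl | h
    · exact hId _ hk
    · exact hId j (hT k hk h)
  have h2 : (∀ k ∈ s, ∀ i ∈ ρ, k ∈ lS i → D.Ob k i (gs G (lS i))) ↔
      ∀ k ∈ s, ∀ i ∈ ρ', k ∈ lS i → D.Ob k i (gs (gp D.L π p ρ' G) (lS i)) := by
    constructor
    · intro h k hk i' hi' hki'
      obtain ⟨i, hi, rfl⟩ := hI.i.onto i' hi'
      have hki := (hkS k hk i hi).1 hki'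
      exact (hOb k hk π ρ ρ' p hI hA (hs hk) (hIk k hk) G hG hp i hi hki).1 (h k hk i hi hki)
    · intro h k hk i hi hki
      exact (hOb k hk π ρ ρ' p hI hA (hs hk) (hIk k hk) G hG hp i hi hki).2
        (h k hk (app π i) (hmap i hi) ((hkS k hk i hi).2 hki))
  exact and_congr h1 h2

end SE
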