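import Pool.Agent.H38.SE.TarS

/-!
# se_modules, module SD: the class `C(s)` (helper38, MP_eaeaf5_lc)
-/

set_option linter.unusedVariables false

open Ordinal Order Set
open scoped ZFSet

namespace SE

open SF

/-- values of a state and of its restriction -/
theorem sd_agree (hSA : T_SA) {D : Cx} (hD : D.Ok) {ρ G ρ' : V} (h : D.St ρ G) (hN : D.N ρ')
    (hs : ρ' ⊆ ρ) (hT : Tr ρ') : D.St ρ' (gs G ρ') ∧ ∀ i ∈ ρ', cg G i = cg (gs G ρ') i ∧
      ev G (lY i) = ev (gs G ρ') (lY i) ∧ ev G (lZ i) = ev (gs G ρ') (lZ i) := by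
  obtain ⟨-, -, h3, -, -⟩ := hSA D hD ρ G h
  obtain ⟨h4, h5⟩ := h3 ρ' hN hs hT
  obtain ⟨-, -, -, -, h6⟩ := hSA D hD ρ' (gs G ρ') h4
  obtain ⟨-, -, -, -, -, h7, -⟩ := h6 ρ G h5
  exact ⟨h4, fun i hi => ⟨(h7 i hi).1, (h7 i hi).2.1, (h7 i hi).2.2.1⟩⟩

theorem sd_pro (hSA : T_SA) {D : Cx} (hD : D.Ok) {ρ G ρ' : V} (h : D.St ρ G) (hN : D.N ρ')
    (hs : ρ' ⊆ ρ) (hT : Tr ρ') {j x : V} (hj : j ∈ ρ') (hz : ev G (lZ j) ≠ kc 0)
    (hx : x = prl (ev G (lZ j)) (cg G j)) : Pro ρ' (gs G ρ') x := by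
  obtain ⟨-, h7⟩ := sd_agree hSA hD h hN hs hT
  obtain ⟨h8, -, h9⟩ := h7 j hj
  refine ⟨j, hj, ?_, ?_⟩
  · rw [← h9]
    exact hz
  · rw [← h9, ← h8]
    exact hx

theorem sd_resS {b : V} (hb : Rl b) : resS om (fun n => app b n) = b := by
  ext z
  rw [mem_resS]
  constructor
  · rintro ⟨n, hn, rfl⟩
    exact (pair_mem_iff_app hb).2 ⟨hn, rfl⟩
  · intro hz
    obtain ⟨n, hn, c, hc, rfl⟩ := ZFSet.mem_prod.1 (hb.1 hz)
    exact ⟨n, hn, by rw [((pair_mem_iff_app hb).1 hz).2]⟩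

/-- the second component of a pair of reals -/
theorem sd_snd {M : V → Prop} (k : ZFm M) {a b : V} (hb : Rl b) (h : M (prl a b)) : M b := by
  have h1 : Tm ZFm (fun _ v => resS SF.om (fun n => snd (app (v 0) n))) :=
    (Tm.resS (f := fun _ _ => SF.om) (g := fun _ v => snd (app (v 1) (v 0))) Tm.om
      (Tm.snd (Tm.app (Tm.var 1) (Tm.var 0)))).congr fun _ _ _ _ => rfl
  have h2 := h1.1 M k (fun _ => prl a b) (fun _ => h)
  have h3 : resS SF.om (fun n => snd (app (prl a b) n)) = b := by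
    conv_rhs => rw [← sd_resS hb]
    apply resS_congr
    intro n hn
    unfold prl
    rw [app_resS hn, snd_pair]
  rw [← h3]
  exact h2

theorem sd_N {D : Cx} (k : ZFm D.N) {L i : V} (hi : Lab L i) (h : D.N i) :
    D.N (lS i) ∧ D.N (lY i) := by
  rw [hi.eq] at h
  obtain ⟨-, h1⟩ := k.of_pair h
  obtain ⟨-, h2⟩ := k.of_pair h1
  obtain ⟨h3, h4⟩ := k.of_pair h2
  exact ⟨h3, (k.of_pair h4).1⟩

theorem sd_dm {L s p : V} (h : p ∈ Pos L s) : dm p ⊆ s := by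
  intro x hx
  obtain ⟨y, hy⟩ := mem_dm.1 hx
  unfold Pos Fs at h
  rw [ZFSet.mem_sep, ZFSet.mem_sep, ZFSet.mem_powerset] at h
  exact (ZFSet.pair_mem_prod.1 (h.1.1 hy)).1

/-- the mixed case -/
theorem sd_mix (hBJ : T_BJ) (hBK : T_BK) (hBP : T_BP) (hSA : T_SA) {D : Cx} (hD : D.Ok)
    {ρ G ρ' : V} (h : D.St ρ G) (hN : D.N ρ') (hs : ρ' ⊆ ρ) (hT : Tr ρ') {i j a : V}
    (hi : i ∈ ρ') (hj : j ∈ ρ) (hj' : j ∉ ρ') : ev G (lY i) ≠ prl a (cg G j) := by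
  intro hx
  obtain ⟨-, hHt, hHN, -, hJ⟩ := hBJ D hD
  obtain ⟨h4, h7⟩ := sd_agree hSA hD h hN hs hT
  have hNρ := hHN ρ h.h
  have hNi : D.N i := hHN i (hHt.mem_trans (hs hi) h.h)
  have hLi := (h.c i (hs hi)).1
  obtain ⟨hNS, hNY⟩ := sd_N hD.zfc.toZFCm.toZFm hLi hNi
  have h8 := ((hBK D hD ρ' (gs G ρ') hN h4.c h4.g).1 (lS i) (lY i) hNS (hT i hi) hLi.tr hNY
    hLi.y).2.1
  rw [← (h7 i hi).2.1, hx] at h8
  have hR := ((hBK D hD ρ G hNρ h.c h.g).2 j hj).1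
  have hZ : ZFm (D.W (gs G ρ')) := (hJ ρ' hN h4.c).2 (gs G ρ') h4.g |>.1.1.toZFCm.toZFm
  exact hBP D hD ρ G ρ' j hNρ h.c h.g hN hs hT hj hj' (sd_snd hZ hR h8)

theorem pf_SD (hBJ : T_BJ) (hBK : T_BK) (hBP : T_BP) (hSA : T_SA) : T_SD := by
  intro D hD hTab s ρ G h hsρ
  refine ⟨?_, ?_, ?_⟩
  · intro s' hs' hC
    exact ⟨hC.con, fun k hk => hC.rul k (hs' hk)⟩
  · intro ρ' hN hsρ' hρ' hT hC
    obtain ⟨-, h7⟩ := sd_agree hSA hD h hN hρ' hT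
    refine ⟨?_, ?_⟩
    · rintro i hi ⟨j, hj, hz, hx⟩
      apply hC.con i (hρ' hi)
      refine ⟨j, hρ' hj, ?_, ?_⟩
      · rw [(h7 j hj).2.2]
        exact hz
      · rw [(h7 j hj).2.2, (h7 j hj).1, (h7 i hi).2.1]
        exact hx
    · intro k hk i hi hki
      obtain ⟨p, hp, hpT⟩ := hC.rul k hk i (hρ' hi) hki
      refine ⟨p, ?_, hpT⟩
      unfold gs
      rw [ZFSet.mem_sep]
      exact ⟨hp, fun x hx => hT i hi (sd_dm (hTab.tp k i p hpT) hx)⟩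
  · intro ρ1 ρ2 hN1 hN2 hT1 hT2 hρ hC1 hC2
    have hs1 : ρ1 ⊆ ρ := by
      intro x hx
      rw [hρ]
      exact ZFSet.mem_union.2 (Or.inl hx)
    have hs2 : ρ2 ⊆ ρ := by
      intro x hx
      rw [hρ]
      exact ZFSet.mem_union.2 (Or.inr hx)
    have a1 := (sd_agree hSA hD h hN1 hs1 hT1).2
    have a2 := (sd_agree hSA hD h hN2 hs2 hT2).2
    refine ⟨?_, ?_⟩
    · rintro i hi ⟨j, hj, hz, hx⟩
      by_cases hj1 : j ∈ ρ1
      · by_cases hi1 : i ∈ ρ1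
        · have := sd_pro hSA hD h hN1 hs1 hT1 hj1 hz hx
          rw [(a1 i hi1).2.1] at this
          exact hC1.con i hi1 this
        · have hi2 : i ∈ ρ2 := by
            rw [hρ] at hi
            exact (ZFSet.mem_union.1 hi).resolve_left hi1
          by_cases hj2 : j ∈ ρ2
          · have := sd_pro hSA hD h hN2 hs2 hT2 hj2 hz hx
            rw [(a2 i hi2).2.1] at this
            exact hC2.con i hi2 this
          · exact sd_mix hBJ hBK hBP hSA hD h hN2 hs2 hT2 hi2 hj hj2 hx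
      · have hj2 : j ∈ ρ2 := by
          rw [hρ] at hj
          exact (ZFSet.mem_union.1 hj).resolve_left hj1
        by_cases hi2 : i ∈ ρ2
        · have := sd_pro hSA hD h hN2 hs2 hT2 hj2 hz hx
          rw [(a2 i hi2).2.1] at this
          exact hC2.con i hi2 this
        · have hi1 : i ∈ ρ1 := by
            rw [hρ] at hi
            exact (ZFSet.mem_union.1 hi).resolve_right hi2
          exact sd_mix hBJ hBK hBP hSA hD h hN1 hs1 hT1 hi1 hj hj1 hx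
    · intro k hk i hi hki
      rw [hρ] at hi
      rcases ZFSet.mem_union.1 hi with hi | hi
      · obtain ⟨p, hp, hpT⟩ := hC1.rul k hk i hi hki
        exact ⟨p, (ZFSet.mem_sep.1 hp).1, hpT⟩
      · obtain ⟨p, hp, hpT⟩ := hC2.rul k hk i hi hki
        exact ⟨p, (ZFSet.mem_sep.1 hp).1, hpT⟩

end SE
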