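import Pool.Agent.H38.SE.TarZ

/-!
# se_modules, module ZJ: the two sides of a label of type 1 (helper38, MP_eaeaf5_lc)
-/

set_option linter.unusedVariables false

open Ordinal Order Set
open scoped ZFSet

namespace SE

open SF

theorem zj_resS {b : V} (hb : Rl b) : resS om (fun n => app b n) = b := by
  ext z
  rw [mem_resS]
  constructor
  · rintro ⟨n, hn, rfl⟩
    exact (pair_mem_iff_app hb).2 ⟨hn, rfl⟩
  · intro hz
    obtain ⟨n, hn, c, hc, rfl⟩ := ZFSet.mem_prod.1 (hb.1 hz)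
    exact ⟨n, hn, by rw [((pair_mem_iff_app hb).1 hz).2]⟩

/-- the components of a pair of reals -/
theorem zj_comp {M : V → Prop} (k : ZFm M) {a b : V} (ha : Rl a) (hb : Rl b) (h : M (prl a b)) :
    M a ∧ M b := by
  constructor
  · have h1 : Tm ZFm (fun _ v => resS SF.om (fun n => fst (app (v 0) n))) :=
      (Tm.resS (f := fun _ _ => SF.om) (g := fun _ v => fst (app (v 1) (v 0))) Tm.om
        (Tm.fst (Tm.app (Tm.var 1) (Tm.var 0)))).congr fun _ _ _ _ => rfl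
    have h2 := h1.1 M k (fun _ => prl a b) (fun _ => h)
    have h3 : resS SF.om (fun n => fst (app (prl a b) n)) = a := by
      conv_rhs => rw [← zj_resS ha]
      apply resS_congr
      intro n hn
      unfold prl
      rw [app_resS hn, fst_pair]
    rw [← h3]
    exact h2
  · have h1 : Tm ZFm (fun _ v => resS SF.om (fun n => snd (app (v 0) n))) :=
      (Tm.resS (f := fun _ _ => SF.om) (g := fun _ v => snd (app (v 1) (v 0))) Tm.om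
        (Tm.snd (Tm.app (Tm.var 1) (Tm.var 0)))).congr fun _ _ _ _ => rfl
    have h2 := h1.1 M k (fun _ => prl a b) (fun _ => h)
    have h3 : resS SF.om (fun n => snd (app (prl a b) n)) = b := by
      conv_rhs => rw [← zj_resS hb]
      apply resS_congr
      intro n hn
      unfold prl
      rw [app_resS hn, snd_pair]
    rw [← h3]
    exact h2

/-- a label in `Lam` whose promise is `(e, (cg k, y))`: the side of `y` -/
theorem zj_back (hAH : T_AH) (hBJ : T_BJ) (hBK : T_BK) (hZA : T_ZA) (hZG : T_ZG) (hZY : T_ZY)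
    {D : Cx} (hF : D.Ful) {G : V} (hG : D.Gn D.Lam G) {k : V} (hk : k ∈ D.Lam)
    (hU : D.Unk k G) {s : V} (hs : s ∈ D.H) (hsL : s ⊆ D.Lam) (hsT : Tr s) (hks : k ∈ s) {y : V}
    (hy : D.W (gs G s) y) (hyR : Rl y) {i : V} (hi : i ∈ D.Lam) {e : ℕ}
    (he : ev G (lZ i) = prl (kc e) (prl (cg G k) y)) :
    k ∈ lS i ∧ D.Gn (lS i) (gs G (lS i)) ∧ D.Unk k (gs G (lS i)) ∧ D.W (gs G (lS i)) y ∧
      ev (gs G (lS i)) (lZ i) = prl (kc e) (prl (cg (gs G (lS i)) k) y) ∧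
      D.Ob k i (gs G (lS i)) ∧ (D.Side k (lS i) (gs G (lS i)) y ↔ D.Side k s (gs G s) y) := by
  obtain ⟨z1, z2, z3, z4, z5⟩ := hZA D hF
  obtain ⟨z6, z7, z8⟩ := z5 G hG
  have hOk := hF.ok
  obtain ⟨-, hHt, hHN, -, hJ⟩ := hBJ D hOk
  have hLi := (z2 i hi).1
  have hSi := (z2 i hi).2
  have hleg := z3 i hi
  have hTi : Tr (lS i) := hLi.tr
  -- lS i in H
  have hiH : i ∈ D.H := z1 hi
  have hSH : lS i ∈ D.H := by
    have hZ : ZFm (· ∈ D.H) := hOk.zfH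
    have h := hiH
    rw [hLi.eq] at h
    obtain ⟨-, h1⟩ := hZ.of_pair h
    obtain ⟨-, h2⟩ := hZ.of_pair h1
    exact (hZ.of_pair h2).1
  have hZi : D.N (lZ i) := by
    have hZ : ZFm D.N := hOk.zfc.toZFCm.toZFm
    have h := hHN i hiH
    rw [hLi.eq] at h
    obtain ⟨-, h1⟩ := hZ.of_pair h
    obtain ⟨-, h2⟩ := hZ.of_pair h1
    obtain ⟨-, h3⟩ := hZ.of_pair h2
    obtain ⟨-, h4⟩ := hZ.of_pair h3
    exact (hZ.of_pair h4).1
  obtain ⟨y1, y2, y3, y4, y5, y6⟩ := z6 (lS i) hSH hSi hTi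
  have hNS : D.N (lS i) := hHN _ hSH
  have hNL : D.N D.Lam := hF.lam
  have hGS : D.Gn (lS i) (gs G (lS i)) := y1.g
  have hb1 := (hBK D hOk (lS i) (gs G (lS i)) hNS y1.c hGS).1 (lS i) (lZ i) hNS (fun _ h => h) hTi
    hZi hLi.z
  have hb2 := (hBK D hOk D.Lam G hNL z2 hG).1 (lS i) (lZ i) hNS hSi hTi hZi hLi.z
  have hev : ev (gs G (lS i)) (lZ i) = ev G (lZ i) := hb2.2.2.2.2.2 (lS i) (fun _ h => h)
  have hw : D.W (gs G (lS i)) (prl (kc e) (prl (cg G k) y)) := by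
    rw [← he, ← hev]
    exact hb1.2.1
  have hcR : Rl (cg G k) := ((hBK D hOk D.Lam G hNL z2 hG).2 k hk).1
  have hZW : ZFm (D.W (gs G (lS i))) := ((hJ (lS i) hNS y1.c).2 _ hGS).1.1.toZFCm.toZFm
  have hw1 := (zj_comp hZW (hAH.2.2.2.1 e).1 (hAH.1 _ _ hcR hyR).1 hw).2
  obtain ⟨hwc, hwy⟩ := zj_comp hZW hcR hyR hw1
  obtain ⟨x1, x2, x3⟩ := hZY D hOk D.Lam G hNL z2 hG
  have hki : k ∈ lS i := x2 k hk (lS i) hNS hSi hTi hwc
  have hUi : D.Unk k (gs G (lS i)) := (x3 k hk (lS i) hNS hSi hTi hki).1.2 hU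
  have hob := hleg.o _ hGS k hki
  have hcg : cg (gs G (lS i)) k = cg G k := (y5 k hki).1
  -- the union
  obtain ⟨u1, u2, u3⟩ := (z8 s hs hsL hsT).2.2 (lS i) hSH hSi hTi
  have hss2 : s ⊆ s ∪ lS i := fun x hx => ZFSet.mem_union.2 (Or.inl hx)
  have hSs2 : lS i ⊆ s ∪ lS i := fun x hx => ZFSet.mem_union.2 (Or.inr hx)
  obtain ⟨v1, v2, v3, v4, v5, v6⟩ := z6 s hs hsL hsT
  obtain ⟨w1, w2, w3, w4, w5, w6⟩ := z6 (s ∪ lS i) u1 u2 u3
  have hC : D.Cl (lS k) (s ∪ lS i) (gs G (s ∪ lS i)) := w2 (lS k) (fun x hx => hss2 (hsT k hks hx))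
  have g1 := (hZG D hF (lS i) (gs G (lS i)) (s ∪ lS i) (gs G (s ∪ lS i)) k y y1
    (y6 _ u1 hSs2 u2 u3) hki hC hwy hyR).1
  have g2 := (hZG D hF s (gs G s) (s ∪ lS i) (gs G (s ∪ lS i)) k y v1
    (v6 _ u1 hss2 u2 u3) hks hC hy hyR).1
  refine ⟨hki, hGS, hUi, hwy, ?_, hob, g1.trans g2.symm⟩
  rw [hev, he, hcg]

/-- the label which promises the side of `y` -/
theorem zj_forth (hAH : T_AH) (hBJ : T_BJ) (hBK : T_BK) (hBO : T_BO) (hWD : T_WD) (hZA : T_ZA)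
    (hZB : T_ZB) (hZY : T_ZY) {D : Cx} (hF : D.Ful) {G : V} (hG : D.Gn D.Lam G) {k : V}
    (hk : k ∈ D.Lam) {s : V} (hs : s ∈ D.H) (hsL : s ⊆ D.Lam) (hsT : Tr s)
    (hks : k ∈ s) {y : V} (hy : D.W (gs G s) y) (hyR : Rl y) :
    ∃ i ∈ D.Lam, (D.Side k s (gs G s) y → ev G (lZ i) = prl (kc 0) (prl (cg G k) y)) ∧
      (¬ D.Side k s (gs G s) y → ev G (lZ i) = prl (kc 1) (prl (cg G k) y)) := by
  obtain ⟨z1, z2, z3, z4, z5⟩ := hZA D hF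
  obtain ⟨z6, z7, z8⟩ := z5 G hG
  have hOk := hF.ok
  obtain ⟨-, hHt, hHN, -, hJ⟩ := hBJ D hOk
  obtain ⟨v1, v2, v3, v4, v5, v6⟩ := z6 s hs hsL hsT
  have hNs : D.N s := hHN s hs
  have hNL : D.N D.Lam := hF.lam
  obtain ⟨τ, hτ, hyτ⟩ := hy
  obtain ⟨o1, o2, o3, o4, o5, o6⟩ := hBO D hOk s hNs v1.c
  obtain ⟨Yn, n1, n2, n3⟩ := o1 τ hτ
  have hYn : ev (gs G s) Yn = y := by
    rw [hyτ]
    exact (n3 (gs G s) v1.g).1 (by rw [← hyτ]; exact hyR)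
  -- the names
  obtain ⟨c1, c2, c3⟩ := o5 k hks
  obtain ⟨A, a1, a2, a3⟩ := o3 _ _ c1 n1 c2 n2
  have hZe : ∀ e : ℕ, ∃ Z, D.N Z ∧ Nam D.L s Z ∧ ∀ G', D.Gn s G' →
      ev G' Z = prl (kc e) (prl (cg G' k) (ev G' Yn)) := by
    intro e
    obtain ⟨k1, k2, k3⟩ := o4 e
    obtain ⟨Z, q1, q2, q3⟩ := o3 _ _ k1 a1 k2 a2
    refine ⟨Z, q1, q2, fun G' hG' => ?_⟩
    rw [q3 G' hG', k3 G' hG', a3 G' hG', c3 G' hG']
  obtain ⟨Z0, p1, p2, p3⟩ := hZe 0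
  obtain ⟨Z1, q1, q2, q3⟩ := hZe 1
  obtain ⟨O, hO, hOG⟩ := (hWD D hOk hF.tab s hs v1.c).2.2.2.1 k hks Yn n1 n2
  obtain ⟨Z, r1, r2, r3⟩ := o2 Z0 Z1 O p1 q1 hO p2 q2
  obtain ⟨k1, k2, k3⟩ := o4 0
  -- facts on values
  have hRl : ∀ G', D.Gn s G' → ∀ j ∈ s, Rl (cg G' j) := fun G' hG' j hj =>
    ((hBK D hOk s G' hNs v1.c hG').2 j hj).1
  have hRY : ∀ G', D.Gn s G' → ∀ Y, D.N Y → Nam D.L s Y → Rl (ev G' Y) := fun G' hG' Y h1 h2 =>
    ((hBK D hOk s G' hNs v1.c hG').1 s Y hNs (fun _ h => h) hsT h1 h2).1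
  have hval : ∀ G', D.Gn s G' → ∀ (e : ℕ) (k' y' : V), k' ∈ s → Rl y' →
      ev G' Z = prl (kc e) (prl (cg G' k') y') →
      (e = 0 ∧ D.Side k s G' (ev G' Yn) ∨ e = 1 ∧ ¬ D.Side k s G' (ev G' Yn)) ∧ k = k' ∧
        ev G' Yn = y' := by
    intro G' hG' e k' y' hk' hy' hE
    have hcmp : ∀ e' : ℕ, prl (kc e') (prl (cg G' k) (ev G' Yn)) = prl (kc e) (prl (cg G' k') y') →
        e' = e ∧ k = k' ∧ ev G' Yn = y' := by
      intro e' h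
      obtain ⟨h1, h2⟩ := hAH.2.1 _ _ _ _ (hAH.2.2.2.1 e').1
        (hAH.1 _ _ (hRl G' hG' k hks) (hRY G' hG' Yn n1 n2)).1 (hAH.2.2.2.1 e).1
        (hAH.1 _ _ (hRl G' hG' k' hk') hy').1 h
      obtain ⟨h3, h4⟩ := hAH.2.1 _ _ _ _ (hRl G' hG' k hks) (hRY G' hG' Yn n1 n2)
        (hRl G' hG' k' hk') hy' h2
      exact ⟨hAH.2.2.2.2.1 e' e h1, (hZY D hOk s G' hNs v1.c hG').1 k hks k' hk' h3, h4⟩
    by_cases hS : D.Side k s G' (ev G' Yn)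
    · have h5 := (r3 G' hG').1 ((hOG G' hG').1 hS)
      rw [h5, p3 G' hG'] at hE
      obtain ⟨h6, h7, h8⟩ := hcmp 0 hE
      exact ⟨Or.inl ⟨h6.symm, hS⟩, h7, h8⟩
    · have h5 := (r3 G' hG').2 (fun h => hS ((hOG G' hG').2 h))
      rw [h5, q3 G' hG'] at hE
      obtain ⟨h6, h7, h8⟩ := hcmp 1 hE
      exact ⟨Or.inr ⟨h6.symm, hS⟩, h7, h8⟩
  have hval2 : ∀ G', D.Gn s G' → ∀ (e : ℕ) (k' : V), 2 ≤ e → k' ∈ s →
      ev G' Z ≠ prl (kc e) (cg G' k') := by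
    intro G' hG' e k' he hk' hE
    have hcmp : ∀ e' : ℕ, prl (kc e') (prl (cg G' k) (ev G' Yn)) = prl (kc e) (cg G' k') →
        e' = e := by
      intro e' h
      obtain ⟨h1, h2⟩ := hAH.2.1 _ _ _ _ (hAH.2.2.2.1 e').1
        (hAH.1 _ _ (hRl G' hG' k hks) (hRY G' hG' Yn n1 n2)).1 (hAH.2.2.2.1 e).1
        (hRl G' hG' k' hk') h
      exact hAH.2.2.2.2.1 e' e h1
    by_cases hS : D.Side k s G' (ev G' Yn)
    · have h5 := (r3 G' hG').1 ((hOG G' hG').1 hS)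
      rw [h5, p3 G' hG'] at hE
      have := hcmp 0 hE
      omega
    · have h5 := (r3 G' hG').2 (fun h => hS ((hOG G' hG').2 h))
      rw [h5, q3 G' hG'] at hE
      have := hcmp 1 hE
      omega
  -- the label
  have hlab : lab (nS 0) ∅ s (knm D.L s 0) Z (knm D.L s 0) (knm D.L s 0) ∈ D.Lam := by
    refine hZB D hF 0 s (knm D.L s 0) Z (knm D.L s 0) (knm D.L s 0) (by omega) hs hsL hsT k1 r1 k1
      k1 k2 r2 k2 k2 ?_ (Or.inl ?_)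
    · rintro G' hG' ⟨j, hj, -, hx⟩
      rw [k3 G' hG'] at hx
      refine hAH.2.2.2.2.2 _ _ ?_ (hRl G' hG' j hj) hx.symm
      have hZ : ZFm D.N := hOk.zfc.toZFCm.toZFm
      have hLj := (v1.c j hj).1
      have h := hHN j (hHt.mem_trans hj hs)
      rw [hLj.eq] at h
      obtain ⟨-, h1⟩ := hZ.of_pair h
      obtain ⟨-, h2⟩ := hZ.of_pair h1
      obtain ⟨h21, h3⟩ := hZ.of_pair h2
      obtain ⟨-, h4⟩ := hZ.of_pair h3
      exact ((hBK D hOk s G' hNs v1.c hG').1 (lS j) (lZ j) h21 (hsT j hj) hLj.tr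
        (hZ.of_pair h4).1 hLj.z).1
    · intro G' hG' k' hk'
      have hlZ : lZ (lab (nS 0) ∅ s (knm D.L s 0) Z (knm D.L s 0) (knm D.L s 0)) = Z := by
        unfold lZ lab
        simp only [fst_pair, snd_pair]
      have hlS : lS (lab (nS 0) ∅ s (knm D.L s 0) Z (knm D.L s 0) (knm D.L s 0)) = s := by
        unfold lS lab
        simp only [fst_pair, snd_pair]
      refine ⟨?_, ?_, ?_, ?_⟩
      · intro _ _ y' _ hy' hE
        rw [hlZ] at hE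
        rw [hlS]
        obtain ⟨h1 | h1, rfl, rfl⟩ := hval G' hG' 0 k' y' hk' hy' hE
        · exact h1.2
        · omega
      · intro _ _ y' _ hy' hE
        rw [hlZ] at hE
        rw [hlS]
        obtain ⟨h1 | h1, rfl, rfl⟩ := hval G' hG' 1 k' y' hk' hy' hE
        · omega
        · exact h1.2
      · intro _ hE
        rw [hlZ] at hE
        exact absurd hE (hval2 G' hG' 2 k' (by omega) hk')
      · intro _ hE
        rw [hlZ] at hE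
        exact absurd hE (hval2 G' hG' 3 k' (by omega) hk')
  have hev : ev G Z = ev (gs G s) Z :=
    (((hBK D hOk D.Lam G hNL z2 hG).1 s Z hNs hsL hsT r1 r2).2.2.2.2.2 s (fun _ h => h)).symm
  have hcg : cg (gs G s) k = cg G k := (v5 k hks).1
  have hlZ : lZ (lab (nS 0) ∅ s (knm D.L s 0) Z (knm D.L s 0) (knm D.L s 0)) = Z := by
    unfold lZ lab
    simp only [fst_pair, snd_pair]
  refine ⟨_, hlab, ?_, ?_⟩
  · intro hS
    rw [← hYn] at hS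
    rw [hlZ, hev, (r3 _ v1.g).1 ((hOG _ v1.g).1 hS), p3 _ v1.g, hYn, hcg]
  · intro hS
    rw [← hYn] at hS
    rw [hlZ, hev, (r3 _ v1.g).2 (fun h => hS ((hOG _ v1.g).2 h)), q3 _ v1.g, hYn, hcg]

theorem pf_ZJ (hAH : T_AH) (hBJ : T_BJ) (hBK : T_BK) (hBO : T_BO) (hWD : T_WD) (hZA : T_ZA)
    (hZB : T_ZB) (hZG : T_ZG) (hZY : T_ZY) : T_ZJ := by
  intro D hF G hG k hk hlE hU s hs hsL hsT hks y hy hyR
  obtain ⟨i, hi, hi0, hi1⟩ := zj_forth hAH hBJ hBK hBO hWD hZA hZB hZY hF hG hk hs hsL hsT hks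
    hy hyR
  refine ⟨⟨fun h => ⟨i, hi, hi0 h⟩, ?_⟩, fun h => ⟨i, hi, hi1 h⟩, ?_⟩
  · rintro ⟨j, hj, hE⟩
    obtain ⟨-, -, h1, h2, h3, h4, h5⟩ := zj_back hAH hBJ hBK hZA hZG hZY hF hG hk hU hs hsL hsT
      hks hy hyR hj hE
    exact h5.1 (h4.r0 hlE h1 y h2 hyR h3)
  · rintro ⟨j, hj, hE⟩ hS
    obtain ⟨-, -, h1, h2, h3, h4, h5⟩ := zj_back hAH hBJ hBK hZA hZG hZY hF hG hk hU hs hsL hsT
      hks hy hyR hj hE
    exact h4.r1 hlE h1 y h2 hyR h3 (h5.2 hS)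

end SE
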